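import Pool.Agent.NE1.Defs

/-! The search for 17 vertices, part 1 of 6: the states after the choice of the neighbours of the top
vertex. -/

namespace Pool.Agent.NE1

/-- some states of the search with 16 vertices left -/
def states1 : List ℕ := [
  649622801481849882416370522730951098122906746533179955125499089576893038161603486124486,
  649622801481849882416370522156404513381809462896134311121626399544820038345357628767829,
  649622801481849882416370522156400129939237890803821406415480129764164886471545182846549,
  649622801481849882416370522156400129905794878020220848608284800889432554825326497988181,
  649622801481849882416370522156400129905794622870282008882349383088380156095609818676821,
  649622801481849882416370522156400129905794622868335369334430115401180824284166441762389,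
  649622801480556118523972331286096908453609518031678436028639303169707506692101172464070]

set_option maxRecDepth 100000 in
theorem part1 : states1.all (fun x => !(node 16 x)) = true := by decide +kernel

end Pool.Agent.NE1
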