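import Pool.Agent.NE1.Defs

/-! The search for 17 vertices, part 2 of 6: the states after the choice of the neighbours of the top
vertex. -/

namespace Pool.Agent.NE1

/-- some states of the search with 16 vertices left -/
def states2 : List ℕ := [
  649622801480556118523897024316141723350448643185027560427411419297475591664766651694677,
  649622801480556118523897023741595138609351359547981916423538729265402591898839863361109,
  649622801480556118523897023741590755166779787455669011717392459484754035446042411761237,
  649622801480556118523897023741590755133336774672068453910197131474496727077159422492245,
  649622801480556118523897023741590755133336519522129614184375022143695335291735033871957,
  649622801480556108653261858350119881848260742961460756286216518115909128874460365815381,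
  649622801480556108653261857775573297107163459324415112282343828083842724529548571803221,
  649622801480556108653261857775568913664591887232102207576197559167669191354086815792725]

set_option maxRecDepth 100000 in
theorem part2 : states2.all (fun x => !(node 16 x)) = true := by decide +kernel

end Pool.Agent.NE1
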