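import Pool.Agent.NE1.Defs

/-! The search for 17 vertices, part 3 of 6: the states after the choice of the neighbours of the top
vertex. -/

namespace Pool.Agent.NE1

/-- some states of the search with 16 vertices left -/
def states3 : List ℕ := [
  649622801480556108653261857775568913631148874448501649769115539627662889929496117214805,
  649622801480556108653261857775568913631148619298562824894861243036843700423197188783701,
  649622801480556108653186550805618112004002584477764236681115945076092428250883809967701,
  649622801480556108653186550805613728561431012385451331975082984630169902019714344648277,
  649622801480556108653186550805613728527987999601850789019568777830145802874249106259541,
  649622801480556108653186550231067143820333728748405702822891416672811730175555997105749,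
  649622801480556108653186550231067143786890715966751784563728664820004760562408675442261]

set_option maxRecDepth 100000 in
theorem part3 : states3.all (fun x => !(node 16 x)) = true := by decide +kernel

end Pool.Agent.NE1
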