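import Pool.Agent.NE1.Defs

/-! The search for 17 vertices, part 4 of 6: the states after the choice of the neighbours of the top
vertex. -/

namespace Pool.Agent.NE1

/-- some states of the search with 16 vertices left -/
def states4 : List ℕ := [
  649622631904335204237588105391726732825087469001000568281520439366160273244219719515733,
  649622631904335204237512798421771547721926594154349692680292555493928358267204267769429,
  649622631904335204237512797847224962980829310517304048676419865461861953922292473757269,
  649622631904335204237512797847220579538257738424991143970273596545688420746830717746773,
  649622631904335204237512797847220579504814725641390586163191577005682119322240019168853,
  649622631904335204237512797847220579504814470491451761288937280414862929815941090737749,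
  649622631904335194366877632455749706219738693930782888539097654312368490897912976211541,
  649622631904335194366877631881203121478641410293737244535224965144777109830336877788757]

set_option maxRecDepth 100000 in
theorem part4 : states4.all (fun x => !(node 16 x)) = true := by decide +kernel

end Pool.Agent.NE1
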