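import Pool.Agent.NE1.Defs

/-! The search for 17 vertices, part 5 of 6: the states after the choice of the neighbours of the top
vertex. -/

namespace Pool.Agent.NE1

/-- some states of the search with 16 vertices left -/
def states5 : List ℕ := [
  649622631904335194366877631881198738036069838201424339829192004698854583599167412469333,
  649622631904335194366877631881198738002626825417823796873677797898830484453702174080597,
  649622631904335194366802324911247936375480535447086368934110390607277820495964406644309,
  649622631904335194366802324911243552932908963354773479079645242901337496543920401514069,
  649622631904335194366802324911243552899465950573119560820482491048530526930773079850581,
  649622631904335194366802324336696968191811679719674474623805129891196454232079970696789,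
  649622631903041430474404134040940331447280590582630493841009984897432663149745900715605]

set_option maxRecDepth 100000 in
theorem part5 : states5.all (fun x => !(node 16 x)) = true := by decide +kernel

end Pool.Agent.NE1
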