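import Pool.Agent.NE1.Defs

/-! The search for 17 vertices, part 6 of 6: the states after the choice of the neighbours of the top
vertex. -/

namespace Pool.Agent.NE1

/-- some states of the search with 16 vertices left -/
def states6 : List ℕ := [
  649622631903041430474404133466393746706183306945584849837250604200092289026462092983893,
  649622631903041430474404133466389363263611734853271959982785456494151965074418087853653,
  649622631903041430474404133466389363230168722071618041723622704641344995461270766190165,
  649622631903041430474328826496438561603022432098933989087703842402575201971215082028629,
  649622631903041430474328826496434178160450860008567723929590149643852007551488993623637,
  649622631903041430474328825921887593419353831521460919651652878277313025213629574512213,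
  649622631903041420603693660530416720100834531877313824494541518242940696634995153665621,
  649622631903041420603693660530412336658263214934939759514330667127819562189250076966485]

set_option maxRecDepth 100000 in
theorem part6 : states6.all (fun x => !(node 16 x)) = true := by decide +kernel

end Pool.Agent.NE1
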