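import Pool.Agent.NE1.Link
import Pool.Agent.NE1.Part1
import Pool.Agent.NE1.Part2
import Pool.Agent.NE1.Part3
import Pool.Agent.NE1.Part4
import Pool.Agent.NE1.Part5
import Pool.Agent.NE1.Part6

/-! There is no `r`-regular `1`-handicap graph on `p` vertices for
`(p, r) = (11, 4), (11, 6), (13, 4), (13, 8), (15, 4), (17, 4)`. -/

namespace Pool.Agent.NE1

open Finset Pool.Agent.Helper48

set_option maxRecDepth 100000 in
theorem no_11_4_search : node 11 114300507199047405749807344326913080462189947807688512076 = false := by decide +kernel

theorem no_11_4_data : P (fun i => (3 + 4 * (11 - 2) - (i + 19) + 64) * 1024 + (569 + (i + 19))) 11 =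
    114300507199047405749807344326913080462189947807688512076 := by decide +kernel

theorem no_11_4 (h : ExistsH 11 4 1) : False := by
  have h1 := direct h (by norm_num) (by norm_num) (fun i => i + 19) (fun i => by omega)
  rw [no_11_4_data, no_11_4_search] at h1
  exact Bool.false_ne_true h1

set_option maxRecDepth 100000 in
theorem no_11_6_search : node 11 137265631814829788119256937440835459911201232275658446427 = false := by decide +kernel

theorem no_11_6_data : P (fun i => (3 + 4 * (11 - 2) - (34 - 2 * i) + 64) * 1024 + (569 + (34 - 2 * i))) 11 =
    137265631814829788119256937440835459911201232275658446427 := by decide +kernel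

theorem no_11_6 (h : ExistsH 11 6 1) : False := by
  have h1 := complement h (by norm_num) (by norm_num) (by norm_num) (fun i => 34 - 2 * i) (fun i hi => by omega)
  rw [no_11_6_data, no_11_6_search] at h1
  exact Bool.false_ne_true h1

set_option maxRecDepth 100000 in
theorem no_13_4_search : node 13 2042781138726612037361641735050847671673647262844913524930236212815 = false := by decide +kernel

theorem no_13_4_data : P (fun i => (3 + 4 * (13 - 2) - (i + 22) + 64) * 1024 + (569 + (i + 22))) 13 =
    2042781138726612037361641735050847671673647262844913524930236212815 := by decide +kernel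

theorem no_13_4 (h : ExistsH 13 4 1) : False := by
  have h1 := direct h (by norm_num) (by norm_num) (fun i => i + 22) (fun i => by omega)
  rw [no_13_4_data, no_13_4_search] at h1
  exact Bool.false_ne_true h1

set_option maxRecDepth 100000 in
theorem no_13_8_search : node 13 2516226663163186428131338703041838990313267938492252866993304051297 = false := by decide +kernel

theorem no_13_8_data : P (fun i => (3 + 4 * (13 - 2) - (40 - 2 * i) + 64) * 1024 + (569 + (40 - 2 * i))) 13 =
    2516226663163186428131338703041838990313267938492252866993304051297 := by decide +kernel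

theorem no_13_8 (h : ExistsH 13 8 1) : False := by
  have h1 := complement h (by norm_num) (by norm_num) (by norm_num) (fun i => 40 - 2 * i) (fun i hi => by omega)
  rw [no_13_8_data, no_13_8_search] at h1
  exact Bool.false_ne_true h1

set_option maxRecDepth 100000 in
theorem no_15_4_search : node 15 36453870208995123517121635491060900627202018569988279142645554275247347694162 = false := by decide +kernel

theorem no_15_4_data : P (fun i => (3 + 4 * (15 - 2) - (i + 25) + 64) * 1024 + (569 + (i + 25))) 15 =
    36453870208995123517121635491060900627202018569988279142645554275247347694162 := by decide +kernel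

theorem no_15_4 (h : ExistsH 15 4 1) : False := by
  have h1 := direct h (by norm_num) (by norm_num) (fun i => i + 25) (fun i => by omega)
  rw [no_15_4_data, no_15_4_search] at h1
  exact Bool.false_ne_true h1

theorem no_17_4_data : P (fun i => (3 + 4 * (17 - 2) - (i + 28) + 64) * 1024 + (569 + (i + 28))) 17 =
    649622869047049443825117652114497093735667254845747479781133272315960696612666802540117 := by decide +kernel

set_option maxRecDepth 100000 in
theorem no_17_4_states :
    (cands 16 (((649622869047049443825117652114497093735667254845747479781133272315960696612666802540117 : ℕ) >>> (17 * 16)) &&& 1023)).map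
      (fun e => (649622869047049443825117652114497093735667254845747479781133272315960696612666802540117 - (((649622869047049443825117652114497093735667254845747479781133272315960696612666802540117 : ℕ) &&& maskD 16) <<< 3)) + e) =
    states1 ++ states2 ++ states3 ++ states4 ++ states5 ++ states6 := by decide +kernel

theorem no_17_4_search : node 17 649622869047049443825117652114497093735667254845747479781133272315960696612666802540117 = false := by
  rw [node_succ]
  apply tryAll_false
  intro e he
  have h1 := List.mem_map_of_mem
    (f := fun e => (649622869047049443825117652114497093735667254845747479781133272315960696612666802540117 - (((649622869047049443825117652114497093735667254845747479781133272315960696612666802540117 : ℕ) &&& maskD 16) <<< 3)) + e) he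
  rw [no_17_4_states] at h1
  simp only [List.mem_append] at h1
  rcases h1 with ((((h | h) | h) | h) | h) | h
  · simpa using List.all_eq_true.1 part1 _ h
  · simpa using List.all_eq_true.1 part2 _ h
  · simpa using List.all_eq_true.1 part3 _ h
  · simpa using List.all_eq_true.1 part4 _ h
  · simpa using List.all_eq_true.1 part5 _ h
  · simpa using List.all_eq_true.1 part6 _ h

theorem no_17_4 (h : ExistsH 17 4 1) : False := by
  have h1 := direct h (by norm_num) (by norm_num) (fun i => i + 28) (fun i => by omega)
  rw [no_17_4_data, no_17_4_search] at h1
  exact Bool.false_ne_true h1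

/-- the six exceptional pairs -/
theorem no_exceptional {p r : ℕ} (h : ExistsH p r 1) :
    ¬ (p = 11 ∧ r = 4) ∧ ¬ (p = 11 ∧ r = 6) ∧ ¬ (p = 13 ∧ r = 4) ∧ ¬ (p = 13 ∧ r = 8) ∧
      ¬ (p = 15 ∧ r = 4) ∧ ¬ (p = 17 ∧ r = 4) := by
  refine ⟨?_, ?_, ?_, ?_, ?_, ?_⟩
  · rintro ⟨rfl, rfl⟩; exact no_11_4 h
  · rintro ⟨rfl, rfl⟩; exact no_11_6 h
  · rintro ⟨rfl, rfl⟩; exact no_13_4 h
  · rintro ⟨rfl, rfl⟩; exact no_13_8 h
  · rintro ⟨rfl, rfl⟩; exact no_15_4 h
  · rintro ⟨rfl, rfl⟩; exact no_17_4 h

end Pool.Agent.NE1
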