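import Mathlib

/-! A backtracking search for regular graphs with prescribed neighbour sums, written for evaluation by
the kernel.

Vertices are the indices `0, …, k-1` (the vertex `i` has the label `i+1`). For each vertex `i` a block
of 17 bits stores the degree `D`, `U = S + 1 - 2D` and `V = (k-2)D + 3 - S` (with guard bits), where
`S` is the sum of the labels of the neighbours of `i`; `U` and `V` are nonnegative. The search removes
the top vertex and tries all sets of neighbours with the right degree and sum. -/

namespace Pool.Agent.NE1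

/-- masks `∑ 2^(17 j)` of the sets of indices `< t` with `65 + ∑ (127 + j) = G` -/
noncomputable def subs (t : ℕ) : ℕ → List ℕ :=
  Nat.rec (motive := fun _ => ℕ → List ℕ)
    (fun G => Bool.rec (motive := fun _ => List ℕ) [] [0] (Nat.beq G 65))
    (fun t ih G =>
      Bool.rec (motive := fun _ => List ℕ) (ih G)
        (Nat.rec (motive := fun _ => List ℕ) (ih G)
          (fun G' _ => ((ih G').map (fun m => Nat.add m (Nat.shiftLeft 1 (17 * t)))) ++ ih G)
          (Nat.sub (Nat.succ G) (127 + t)))
        (Nat.ble (127 + t) G)) t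

/-- the bits of the degrees of the vertices `< k` -/
noncomputable def maskD (k : ℕ) : ℕ :=
  Nat.rec (motive := fun _ => ℕ) 0 (fun k ih => ih + Nat.shiftLeft 896 (17 * k)) k

/-- the guard bits of the vertices `< k` -/
noncomputable def guard (k : ℕ) : ℕ :=
  Nat.rec (motive := fun _ => ℕ) 0 (fun k ih => ih + Nat.shiftLeft 65600 (17 * k)) k

/-- the increments for the possible neighbourhoods of the vertex `k` -/
noncomputable def cands (k E : ℕ) : List ℕ := (subs k E).map (fun m => (2945 - k) * m)

/-- try all increments -/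
noncomputable def tryAll (f : ℕ → Bool) (Y g : ℕ) (L : List ℕ) : Bool :=
  List.rec (motive := fun _ => Bool) false (fun e _ r =>
    Bool.rec (motive := fun _ => Bool) r
      (Bool.rec (motive := fun _ => Bool) r true
        (Nat.rec (motive := fun _ => Bool) false (fun Z _ => f Z) (Nat.add (Nat.add Y e) 1)))
      (Nat.beq (Nat.land (Nat.add Y e) g) g)) L

/-- the search for `k` vertices -/
noncomputable def node (k : ℕ) : ℕ → Bool :=
  Nat.rec (motive := fun _ => ℕ → Bool) (fun _ => true)
    (fun k ih X =>
      Nat.rec (motive := fun _ => Bool) false (fun Y _ =>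
        Nat.rec (motive := fun _ => Bool) false (fun E _ => tryAll ih Y (guard k) (cands k E))
          (Nat.add (Nat.land (Nat.shiftRight X (17 * k)) 1023) 1))
        (Nat.add (Nat.sub X (Nat.shiftLeft (Nat.land X (maskD k)) 3)) 1)) k

theorem subs_zero (G : ℕ) : subs 0 G = if G = 65 then [0] else [] := by
  show Bool.rec (motive := fun _ => List ℕ) [] [0] (Nat.beq G 65) = _
  by_cases h : G = 65
  · subst h; rfl
  · rw [if_neg h]
    have : Nat.beq G 65 = false := by
      cases hb : Nat.beq G 65
      · rfl
      · exact absurd (Nat.eq_of_beq_eq_true hb) h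
    rw [this]

theorem subs_succ_lt (t G : ℕ) (h : G < 127 + t) : subs (t + 1) G = subs t G := by
  show Bool.rec (motive := fun _ => List ℕ) (subs t G) _ (Nat.ble (127 + t) G) = _
  have : Nat.ble (127 + t) G = false := by
    cases hb : Nat.ble (127 + t) G
    · rfl
    · exact absurd (Nat.le_of_ble_eq_true hb) (by omega)
  rw [this]

theorem subs_succ_ge (t G : ℕ) : subs (t + 1) (G + (127 + t)) =
    (subs t G).map (fun m => m + 2 ^ (17 * t)) ++ subs t (G + (127 + t)) := by
  show Bool.rec (motive := fun _ => List ℕ) (subs t (G + (127 + t)))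
    (Nat.rec (motive := fun _ => List ℕ) (subs t (G + (127 + t)))
          (fun G' _ => ((subs t G').map (fun m => Nat.add m (Nat.shiftLeft 1 (17 * t)))) ++
            subs t (G + (127 + t)))
          (Nat.sub (Nat.succ (G + (127 + t))) (127 + t))) (Nat.ble (127 + t) (G + (127 + t))) = _
  have h1 : Nat.ble (127 + t) (G + (127 + t)) = true := Nat.ble_eq_true_of_le (by omega)
  have h2 : Nat.sub (Nat.succ (G + (127 + t))) (127 + t) = Nat.succ G := by
    show Nat.succ (G + (127 + t)) - (127 + t) = Nat.succ G
    omega
  rw [h1, h2]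
  show ((subs t G).map (fun m => Nat.add m (Nat.shiftLeft 1 (17 * t)))) ++ subs t (G + (127 + t)) = _
  congr 2
  funext m
  show m + (1 <<< (17 * t)) = _
  rw [Nat.shiftLeft_eq, one_mul]

theorem maskD_succ (k : ℕ) : maskD (k + 1) = maskD k + 896 * 2 ^ (17 * k) := by
  show maskD k + (896 <<< (17 * k)) = _
  rw [Nat.shiftLeft_eq]

theorem guard_succ (k : ℕ) : guard (k + 1) = guard k + 65600 * 2 ^ (17 * k) := by
  show guard k + (65600 <<< (17 * k)) = _
  rw [Nat.shiftLeft_eq]

theorem tryAll_nil (f : ℕ → Bool) (Y g : ℕ) : tryAll f Y g [] = false := rfl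

theorem tryAll_cons (f : ℕ → Bool) (Y g e : ℕ) (L : List ℕ) : tryAll f Y g (e :: L) =
    if (Y + e) &&& g = g ∧ f (Y + e) = true then true else tryAll f Y g L := by
  show Bool.rec (motive := fun _ => Bool) (tryAll f Y g L)
      (Bool.rec (motive := fun _ => Bool) (tryAll f Y g L) true (f (Y + e)))
      (Nat.beq (Nat.land (Nat.add Y e) g) g) = _
  cases hb : Nat.beq (Nat.land (Nat.add Y e) g) g
  · have : ¬ ((Y + e) &&& g = g) := by
      intro h
      have h' : Nat.land (Nat.add Y e) g = g := h
      rw [h'] at hb
      simp at hb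
    simp [this]
  · have : (Y + e) &&& g = g := Nat.eq_of_beq_eq_true hb
    cases hf : f (Y + e)
    · simp
    · simp [this]

theorem tryAll_true {f : ℕ → Bool} {Y g e : ℕ} {L : List ℕ} (he : e ∈ L)
    (h1 : (Y + e) &&& g = g) (h2 : f (Y + e) = true) : tryAll f Y g L = true := by
  induction L with
  | nil => simp at he
  | cons a L ih =>
    rw [tryAll_cons]
    rcases List.mem_cons.1 he with rfl | h
    · simp [h1, h2]
    · split_ifs
      · rfl
      · exact ih h

theorem tryAll_false {f : ℕ → Bool} {Y g : ℕ} {L : List ℕ} (h : ∀ e ∈ L, f (Y + e) = false) :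
    tryAll f Y g L = false := by
  induction L with
  | nil => rfl
  | cons a L ih =>
    rw [tryAll_cons, if_neg]
    · exact ih (fun e he => h e (List.mem_cons_of_mem _ he))
    · rintro ⟨_, h2⟩
      rw [h a (List.mem_cons_self ..)] at h2
      exact Bool.false_ne_true h2

theorem node_zero (X : ℕ) : node 0 X = true := rfl

theorem node_succ (k X : ℕ) : node (k + 1) X =
    tryAll (node k) (X - ((X &&& maskD k) <<< 3)) (guard k) (cands k ((X >>> (17 * k)) &&& 1023)) :=
  rfl

end Pool.Agent.NE1
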