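import Pool.Agent.NE1.Sound
import Pool.Agent.Helper48.HcNec

/-! From adjacency matrices to the search. -/

namespace Pool.Agent.NE1

open Finset Pool.Agent.Helper48

variable {p : ℕ}

/-- the relation on natural numbers of an adjacency matrix -/
def rel (A : Fin p → Fin p → ℤ) (i j : ℕ) : Prop := ∃ (hi : i < p) (hj : j < p), A ⟨i, hi⟩ ⟨j, hj⟩ = 1

theorem sum_N {A : Fin p → Fin p → ℤ} (hA : IsAdj A) (g : ℕ → ℤ) (x : Fin p) :
    ∑ j ∈ N (rel A) p x.val, g j = ∑ y, A x y * g y.val := by
  classical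
  have h1 : ∀ y : Fin p, A x y * g y.val = if rel A x.val y.val then g y.val else 0 := by
    intro y
    rcases hA.zo x y with h | h
    · have : ¬ rel A x.val y.val := by
        rintro ⟨_, _, h'⟩
        simp only [Fin.eta] at h'
        rw [h'] at h
        exact one_ne_zero h
      rw [if_neg this, h, zero_mul]
    · have : rel A x.val y.val := ⟨x.isLt, y.isLt, by simpa using h⟩
      rw [if_pos this, h, one_mul]
  rw [sum_congr rfl (fun y _ => h1 y),
    Fin.sum_univ_eq_sum_range (fun j => if rel A x.val j then g j else 0) p]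
  unfold N
  rw [sum_filter]

theorem rel_symm {A : Fin p → Fin p → ℤ} (hA : IsAdj A) (i j : ℕ) (h : rel A i j) : rel A j i := by
  obtain ⟨h1, h2, h3⟩ := h
  exact ⟨h2, h1, by rw [hA.symm]; exact h3⟩

theorem rel_irr {A : Fin p → Fin p → ℤ} (hA : IsAdj A) (i : ℕ) : ¬ rel A i i := by
  rintro ⟨h1, h2, h3⟩
  rw [hA.diag] at h3
  exact zero_ne_one h3

/-- the packed data of a 4-regular graph with the neighbour sums `S` -/
theorem search_true {A : Fin p → Fin p → ℤ} (hA : IsAdj A) (hp : p ≤ 17) (hd : ∀ x, deg A x = 4)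
    (S : ℕ → ℕ) (hS : ∀ x : Fin p, ∑ y, A x y * ((y.val : ℤ) + 1) = S x.val)
    (hS2 : ∀ i < p, S i ≤ 4 * p - 8 + 3) (hp2 : 2 ≤ p) :
    node p (P (fun i => (3 + 4 * (p - 2) - S i + 64) * 1024 + (569 + S i)) p) = true := by
  have hcard : ∀ x : Fin p, (((N (rel A) p x.val).card : ℕ) : ℤ) = 4 := by
    intro x
    have h1 := sum_N hA (fun _ => 1) x
    simp only [sum_const, nsmul_eq_mul, mul_one] at h1
    rw [h1]
    exact hd x
  have hsum : ∀ x : Fin p, ∑ j ∈ N (rel A) p x.val, ((j : ℤ) + 1) = S x.val := by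
    intro x
    rw [sum_N hA (fun j => (j : ℤ) + 1) x]
    exact hS x
  have hrow : ∀ i < p, row (rel A) p i = (3 + 4 * (p - 2) - S i + 64) * 1024 + (569 + S i) := by
    intro i hi
    have h1 := hcard ⟨i, hi⟩
    have h2 := hsum ⟨i, hi⟩
    simp only at h1 h2
    have hE : (E (rel A) p i : ℤ) = 569 + S i := by
      unfold E
      push_cast
      have : ∑ j ∈ N (rel A) p i, ((127 : ℤ) + j) =
          ∑ j ∈ N (rel A) p i, (126 : ℤ) + ∑ j ∈ N (rel A) p i, ((j : ℤ) + 1) := by
        rw [← sum_add_distrib]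
        apply sum_congr rfl
        intro j _; ring
      rw [this, h2, sum_const, nsmul_eq_mul, h1]
      ring
    have hV : Vz (rel A) p i = 3 + 4 * ((p : ℤ) - 2) - S i := by
      unfold Vz
      have : ∑ j ∈ N (rel A) p i, ((p : ℤ) - 3 - j) =
          ∑ j ∈ N (rel A) p i, ((p : ℤ) - 2) - ∑ j ∈ N (rel A) p i, ((j : ℤ) + 1) := by
        rw [← sum_sub_distrib]
        apply sum_congr rfl
        intro j _; ring
      rw [this, h2, sum_const, nsmul_eq_mul, h1]
      ring
    have hSi := hS2 i hi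
    have hE' : E (rel A) p i = 569 + S i := by exact_mod_cast hE
    have hV' : (Vz (rel A) p i).toNat = 3 + 4 * (p - 2) - S i := by
      rw [hV]; omega
    unfold row
    rw [hE', hV']
  have hP : P (fun i => (3 + 4 * (p - 2) - S i + 64) * 1024 + (569 + S i)) p = P (row (rel A) p) p := by
    unfold P
    apply sum_congr rfl
    intro i hi
    rw [hrow i (mem_range.1 hi)]
  rw [hP]
  refine node_sound (rel A) (fun i j h => rel_symm hA i j h) (rel_irr hA) p _ 0 hp ?_ (by simp)
  intro i hi
  have := hcard ⟨i, hi⟩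
  simp only at this
  have h4 : (N (rel A) p i).card = 4 := by exact_mod_cast this
  omega

/-- the complementary matrix -/
def compl (A : Fin p → Fin p → ℤ) (x y : Fin p) : ℤ := if x = y then 0 else 1 - A x y

theorem compl_adj {A : Fin p → Fin p → ℤ} (hA : IsAdj A) : IsAdj (compl A) := by
  refine ⟨fun a b => ?_, fun a b => ?_, fun a => ?_⟩
  · unfold compl
    split_ifs
    · exact Or.inl rfl
    · rcases hA.zo a b with h | h <;> rw [h] <;> simp
  · unfold compl
    by_cases h : a = b
    · rw [if_pos h, if_pos h.symm]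
    · rw [if_neg h, if_neg (fun h' => h h'.symm), hA.symm a b]
  · unfold compl; simp

theorem compl_sum {A : Fin p → Fin p → ℤ} (hA : IsAdj A) (g : Fin p → ℤ) (x : Fin p) :
    ∑ y, compl A x y * g y = ∑ y, g y - g x - ∑ y, A x y * g y := by
  have h1 : ∀ y, compl A x y * g y = g y - (if x = y then g y else 0) - A x y * g y := by
    intro y
    unfold compl
    split_ifs with h
    · subst h; rw [hA.diag]; ring
    · ring
  rw [sum_congr rfl (fun y _ => h1 y), sum_sub_distrib, sum_sub_distrib, sum_ite_eq]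
  simp

/-- sums of the labels, `r = 4`, `d = 1` -/
theorem direct (h : ExistsH p 4 1) (hp : p ≤ 17) (hp2 : 9 ≤ p) (S : ℕ → ℕ)
    (hS : ∀ i, 2 * S i = 2 * i + 3 * p + 5) :
    node p (P (fun i => (3 + 4 * (p - 2) - S i + 64) * 1024 + (569 + S i)) p) = true := by
  obtain ⟨A, hA, hd, _, hw⟩ := existsH_matrix h (by omega)
  refine search_true hA hp hd S ?_ ?_ (by omega)
  · intro x
    have h1 := hw x
    have h2 : ∑ y, A x y * (2 * (y.val : ℤ) + 1 - p) =
        2 * ∑ y, A x y * ((y.val : ℤ) + 1) - (p + 1) * ∑ y, A x y := by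
      rw [mul_sum, mul_sum, ← sum_sub_distrib]
      apply sum_congr rfl
      intro y _; ring
    rw [h2] at h1
    have h3 : ∑ y, A x y = 4 := hd x
    rw [h3] at h1
    have h4 := hS x.val
    zify at h4
    push_cast at h1
    linarith
  · intro i hi
    have := hS i
    omega

/-- the complement: `p - 1 - r = 4`, `d = 1` -/
theorem complement {r : ℕ} (h : ExistsH p r 1) (hr : r + 5 = p) (hp : p ≤ 17) (hp2 : 9 ≤ p) (S : ℕ → ℕ)
    (hS : ∀ i < p, S i + 2 * i = 3 * p + 1) :
    node p (P (fun i => (3 + 4 * (p - 2) - S i + 64) * 1024 + (569 + S i)) p) = true := by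
  obtain ⟨A, hA, hd, _, hw⟩ := existsH_matrix h (by omega)
  have hB := compl_adj hA
  have hdB : ∀ x, deg (compl A) x = 4 := by
    intro x
    have h1 := compl_sum hA (fun _ => 1) x
    simp only [mul_one, sum_const, card_univ, Fintype.card_fin, nsmul_eq_mul] at h1
    have h3 : ∑ y, A x y = r := hd x
    rw [h3] at h1
    have : (r : ℤ) + 5 = p := by exact_mod_cast hr
    show ∑ y, compl A x y = 4
    rw [h1]; linarith
  refine search_true hB hp hdB S ?_ ?_ (by omega)
  · intro x
    have h1 := hw x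
    have h2 : ∑ y, A x y * (2 * (y.val : ℤ) + 1 - p) =
        2 * ∑ y, A x y * ((y.val : ℤ) + 1) - (p + 1) * ∑ y, A x y := by
      rw [mul_sum, mul_sum, ← sum_sub_distrib]
      apply sum_congr rfl
      intro y _; ring
    rw [h2] at h1
    have h3 : ∑ y, A x y = r := hd x
    rw [h3] at h1
    have h5 := compl_sum hA (fun y => (y.val : ℤ) + 1) x
    rw [h5]
    have h6 := gauss_fin p
    have h7 : ∑ y : Fin p, ((y.val : ℤ) + 1) = ∑ y : Fin p, (y.val : ℤ) + p := by
      rw [sum_add_distrib]; simp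
    rw [h7]
    have h4 := hS x.val x.isLt
    zify at h4
    have hr' : (r : ℤ) = p - 5 := by
      have : (r : ℤ) + 5 = p := by exact_mod_cast hr
      linarith
    rw [hr'] at h1
    push_cast at h1
    nlinarith
  · intro i hi
    have := hS i hi
    omega

end Pool.Agent.NE1
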