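import Pool.Agent.NE1.Defs

/-! Packed vectors with blocks of 17 bits. -/

namespace Pool.Agent.NE1

open Finset

/-- the packed vector of the blocks `f 0, …, f (k-1)` -/
def P (f : ℕ → ℕ) (k : ℕ) : ℕ := ∑ i ∈ range k, f i * 2 ^ (17 * i)

theorem P_succ (f : ℕ → ℕ) (k : ℕ) : P f (k + 1) = P f k + f k * 2 ^ (17 * k) := by
  unfold P; rw [sum_range_succ]

theorem P_lt {f : ℕ → ℕ} {k : ℕ} (hf : ∀ i < k, f i < 2 ^ 17) : P f k < 2 ^ (17 * k) := by
  induction k with
  | zero => simp [P]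
  | succ k ih =>
    rw [P_succ]
    have h1 := ih (fun i hi => hf i (by omega))
    have h2 := hf k (by omega)
    have h3 : 2 ^ (17 * (k + 1)) = 2 ^ (17 * k) * 2 ^ 17 := by rw [← pow_add]; ring_nf
    rw [h3]
    nlinarith [Nat.pos_of_ne_zero (show 2 ^ (17 * k) ≠ 0 by positivity)]

theorem land_split (n x y x' y' : ℕ) (hx : x < 2 ^ n) (hx' : x' < 2 ^ n) :
    (x + 2 ^ n * y) &&& (x' + 2 ^ n * y') = (x &&& x') + 2 ^ n * (y &&& y') := by
  apply Nat.eq_of_testBit_eq
  intro i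
  rw [Nat.testBit_land, add_comm x, add_comm x', add_comm (x &&& x'),
    Nat.testBit_two_pow_mul_add _ hx, Nat.testBit_two_pow_mul_add _ hx',
    Nat.testBit_two_pow_mul_add _ (lt_of_le_of_lt Nat.and_le_left hx)]
  split_ifs <;> simp

theorem land_P {f g : ℕ → ℕ} {k : ℕ} (J : ℕ) (hf : ∀ i < k, f i < 2 ^ 17)
    (hg : ∀ i < k, g i < 2 ^ 17) :
    (P f k + 2 ^ (17 * k) * J) &&& P g k = P (fun i => f i &&& g i) k := by
  induction k generalizing J with
  | zero => simp [P]
  | succ k ih =>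
    have hf' : ∀ i < k, f i < 2 ^ 17 := fun i hi => hf i (by omega)
    have hg' : ∀ i < k, g i < 2 ^ 17 := fun i hi => hg i (by omega)
    have h1 : P f (k + 1) + 2 ^ (17 * (k + 1)) * J = P f k + 2 ^ (17 * k) * (f k + 2 ^ 17 * J) := by
      rw [P_succ]
      have h3 : 2 ^ (17 * (k + 1)) = 2 ^ (17 * k) * 2 ^ 17 := by rw [← pow_add]; ring_nf
      rw [h3]; ring
    have h2 : P g (k + 1) = P g k + 2 ^ (17 * k) * (g k + 2 ^ 17 * 0) := by
      rw [P_succ]; ring
    rw [h1, h2, land_split _ _ _ _ _ (P_lt hf') (P_lt hg'), P_succ]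
    have h3 := ih 0 hf' hg'
    rw [mul_zero, add_zero] at h3
    rw [h3, land_split _ _ _ _ _ (hf k (by omega)) (hg k (by omega))]
    simp only [Nat.and_zero, mul_zero, add_zero]
    ring

theorem maskD_eq (k : ℕ) : maskD k = P (fun _ => 896) k := by
  induction k with
  | zero => rfl
  | succ k ih => rw [maskD_succ, P_succ, ih]

theorem guard_eq (k : ℕ) : guard k = P (fun _ => 65600) k := by
  induction k with
  | zero => rfl
  | succ k ih => rw [guard_succ, P_succ, ih]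

/-- the block with the entries `V`, `D`, `U` -/
theorem block_maskD (V D U : ℕ) (hD : D < 8) (hU : U < 64) :
    ((V + 64) * 1024 + D * 128 + (64 + U)) &&& 896 = D * 128 := by
  have h1 : (V + 64) * 1024 + D * 128 + (64 + U) = (64 + U) + 2 ^ 7 * (D + 2 ^ 3 * (V + 64)) := by ring
  have h2 : 896 = 0 + 2 ^ 7 * (7 + 2 ^ 3 * 0) := by norm_num
  rw [h1, h2, land_split _ _ _ _ _ (by norm_num; omega) (by norm_num),
    land_split _ _ _ _ _ (by norm_num; omega) (by norm_num)]
  simp only [Nat.and_zero, mul_zero, add_zero, zero_add]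
  have h3 : D &&& 7 = D := by
    have := Nat.and_two_pow_sub_one_eq_mod D 3
    norm_num at this
    rw [this]
    omega
  rw [h3]; ring

theorem block_guard (V D U : ℕ) (hV : V < 64) (hD : D < 8) (hU : U < 64) :
    ((V + 64) * 1024 + D * 128 + (64 + U)) &&& 65600 = 65600 := by
  have h1 : (V + 64) * 1024 + D * 128 + (64 + U) =
      U + 2 ^ 6 * (1 + 2 ^ 1 * (D + 2 ^ 3 * (V + 2 ^ 6 * 1))) := by ring
  have h2 : 65600 = 0 + 2 ^ 6 * (1 + 2 ^ 1 * (0 + 2 ^ 3 * (0 + 2 ^ 6 * 1))) := by norm_num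
  rw [h1]
  conv_lhs => rw [h2]
  rw [land_split _ _ _ _ _ (by norm_num; omega) (by norm_num),
    land_split _ _ _ _ _ (by norm_num) (by norm_num),
    land_split _ _ _ _ _ (by norm_num; omega) (by norm_num),
    land_split _ _ _ _ _ (by norm_num; omega) (by norm_num)]
  simp

theorem block_lt (V D U : ℕ) (hV : V < 64) (hD : D < 8) (hU : U < 64) :
    (V + 64) * 1024 + D * 128 + (64 + U) < 2 ^ 17 := by
  norm_num; omega

end Pool.Agent.NE1
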