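import Pool.Agent.NE1.Pack

/-! Soundness of the search: it succeeds if there is a graph. -/

namespace Pool.Agent.NE1

open Finset

theorem mem_subs (t : ℕ) : ∀ (T : Finset ℕ) (G : ℕ), T ⊆ range t → 65 + ∑ j ∈ T, (127 + j) = G →
    ∑ j ∈ T, 2 ^ (17 * j) ∈ subs t G := by
  induction t with
  | zero =>
    intro T G hT hG
    have : T = ∅ := by simpa using hT
    subst this
    simp only [sum_empty, add_zero] at hG ⊢
    rw [subs_zero, if_pos hG.symm]
    simp
  | succ t ih =>
    intro T G hT hG
    by_cases ht : t ∈ T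
    · have hT' : T.erase t ⊆ range t := by
        intro x hx
        rw [mem_erase] at hx
        have := mem_range.1 (hT hx.2)
        rw [mem_range]; omega
      have h1 : ∑ j ∈ T, (127 + j) = ∑ j ∈ T.erase t, (127 + j) + (127 + t) :=
        (sum_erase_add _ _ ht).symm
      have h2 : ∑ j ∈ T, 2 ^ (17 * j) = ∑ j ∈ T.erase t, 2 ^ (17 * j) + 2 ^ (17 * t) :=
        (sum_erase_add _ _ ht).symm
      have h3 := ih (T.erase t) _ hT' rfl
      have hG' : G = (65 + ∑ j ∈ T.erase t, (127 + j)) + (127 + t) := by omega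
      rw [hG', subs_succ_ge, h2, List.mem_append]
      left
      exact List.mem_map.2 ⟨_, h3, rfl⟩
    · have hT' : T ⊆ range t := by
        intro x hx
        have := mem_range.1 (hT hx)
        rw [mem_range]
        have : x ≠ t := by rintro rfl; exact ht hx
        omega
      have h3 := ih T G hT' hG
      by_cases hlt : G < 127 + t
      · rw [subs_succ_lt _ _ hlt]; exact h3
      · obtain ⟨G', rfl⟩ : ∃ G', G = G' + (127 + t) := ⟨G - (127 + t), by omega⟩
        rw [subs_succ_ge, List.mem_append]
        right; exact h3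

section

variable (A : ℕ → ℕ → Prop)

open Classical in
/-- the neighbours of `i` among the vertices `< k` -/
noncomputable def N (k i : ℕ) : Finset ℕ := (range k).filter (fun j => A i j)

theorem mem_N {k i j : ℕ} : j ∈ N A k i ↔ j < k ∧ A i j := by
  unfold N
  simp

/-- the code of the neighbourhood -/
noncomputable def E (k i : ℕ) : ℕ := 65 + ∑ j ∈ N A k i, (127 + j)

/-- `U` -/
noncomputable def Uz (k i : ℕ) : ℤ := 1 + ∑ j ∈ N A k i, ((j : ℤ) - 1)

/-- `V` -/
noncomputable def Vz (k i : ℕ) : ℤ := 3 + ∑ j ∈ N A k i, ((k : ℤ) - 3 - j)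

/-- the block of the vertex `i` -/
noncomputable def row (k i : ℕ) : ℕ := ((Vz A k i).toNat + 64) * 1024 + E A k i

theorem Uz_nonneg (k i : ℕ) : 0 ≤ Uz A k i := by
  have h1 : ∑ j ∈ N A k i, (if j = 0 then (-1 : ℤ) else 0) ≤ ∑ j ∈ N A k i, ((j : ℤ) - 1) := by
    apply sum_le_sum
    intro j _
    split_ifs with h <;> omega
  have h2 : (-1 : ℤ) ≤ ∑ j ∈ N A k i, (if j = 0 then (-1 : ℤ) else 0) := by
    rw [sum_ite_eq']
    split_ifs <;> simp
  unfold Uz
  omega

theorem Vz_nonneg (k i : ℕ) : 0 ≤ Vz A k i := by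
  classical
  have h1 : ∑ j ∈ N A k i, ((if j + 1 = k then (-2 : ℤ) else 0) + (if j + 2 = k then (-1 : ℤ) else 0)) ≤
      ∑ j ∈ N A k i, ((k : ℤ) - 3 - j) := by
    apply sum_le_sum
    intro j hj
    have hj' : j < k := ((mem_N A).1 hj).1
    split_ifs with h h' <;> omega
  have h2 : (-2 : ℤ) ≤ ∑ j ∈ N A k i, (if j + 1 = k then (-2 : ℤ) else 0) := by
    rw [← sum_filter, sum_const, nsmul_eq_mul]
    have : ((N A k i).filter (fun j => j + 1 = k)).card ≤ 1 := by
      rw [card_le_one]
      intro a ha b hb
      have := (mem_filter.1 ha).2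
      have := (mem_filter.1 hb).2
      omega
    have : ((((N A k i).filter (fun j => j + 1 = k)).card : ℕ) : ℤ) ≤ 1 := by exact_mod_cast this
    nlinarith
  have h3 : (-1 : ℤ) ≤ ∑ j ∈ N A k i, (if j + 2 = k then (-1 : ℤ) else 0) := by
    rw [← sum_filter, sum_const, nsmul_eq_mul]
    have : ((N A k i).filter (fun j => j + 2 = k)).card ≤ 1 := by
      rw [card_le_one]
      intro a ha b hb
      have := (mem_filter.1 ha).2
      have := (mem_filter.1 hb).2
      omega
    have : ((((N A k i).filter (fun j => j + 2 = k)).card : ℕ) : ℤ) ≤ 1 := by exact_mod_cast this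
    nlinarith
  rw [sum_add_distrib] at h1
  unfold Vz
  omega

theorem Uz_lt (k i : ℕ) (hk : k ≤ 17) (hD : (N A k i).card ≤ 4) : Uz A k i < 64 := by
  have h1 : ∑ j ∈ N A k i, ((j : ℤ) - 1) ≤ ∑ j ∈ N A k i, (15 : ℤ) := by
    apply sum_le_sum
    intro j hj
    have hj' : j < k := ((mem_N A).1 hj).1
    omega
  rw [sum_const, nsmul_eq_mul] at h1
  have : (((N A k i).card : ℕ) : ℤ) ≤ 4 := by exact_mod_cast hD
  unfold Uz
  nlinarith

theorem Vz_lt (k i : ℕ) (hk : k ≤ 17) (hD : (N A k i).card ≤ 4) : Vz A k i < 64 := by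
  have h1 : ∑ j ∈ N A k i, ((k : ℤ) - 3 - j) ≤ ∑ j ∈ N A k i, (14 : ℤ) := by
    apply sum_le_sum
    intro j hj
    omega
  rw [sum_const, nsmul_eq_mul] at h1
  have : (((N A k i).card : ℕ) : ℤ) ≤ 4 := by exact_mod_cast hD
  unfold Vz
  nlinarith

theorem E_eq (k i : ℕ) : E A k i = (N A k i).card * 128 + (64 + (Uz A k i).toNat) := by
  have h := Uz_nonneg A k i
  have h1 : (E A k i : ℤ) = (N A k i).card * 128 + (64 + Uz A k i) := by
    unfold E Uz
    push_cast
    have h2 : ∑ j ∈ N A k i, ((127 : ℤ) + j) = ∑ j ∈ N A k i, (128 : ℤ) + ∑ j ∈ N A k i, ((j : ℤ) - 1) := by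
      rw [← sum_add_distrib]
      apply sum_congr rfl
      intro j _; ring
    rw [h2, sum_const, nsmul_eq_mul]
    ring
  have h2 : ((Uz A k i).toNat : ℤ) = Uz A k i := Int.toNat_of_nonneg h
  have h3 : (E A k i : ℤ) = (((N A k i).card * 128 + (64 + (Uz A k i).toNat) : ℕ) : ℤ) := by
    push_cast
    rw [h2, h1]
  exact_mod_cast h3

theorem row_eq (k i : ℕ) : row A k i =
    ((Vz A k i).toNat + 64) * 1024 + (N A k i).card * 128 + (64 + (Uz A k i).toNat) := by
  unfold row
  rw [E_eq]; ring

theorem row_lt (k i : ℕ) (hk : k ≤ 17) (hD : (N A k i).card ≤ 4) : row A k i < 2 ^ 17 := by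
  rw [row_eq]
  have h1 := Uz_lt A k i hk hD
  have h2 := Vz_lt A k i hk hD
  exact block_lt _ _ _ (by omega) (by omega) (by omega)

theorem row_guard (k i : ℕ) (hk : k ≤ 17) (hD : (N A k i).card ≤ 4) :
    row A k i &&& 65600 = 65600 := by
  rw [row_eq]
  have h1 := Uz_lt A k i hk hD
  have h2 := Vz_lt A k i hk hD
  exact block_guard _ _ _ (by omega) (by omega) (by omega)

theorem row_maskD (k i : ℕ) (hk : k ≤ 17) (hD : (N A k i).card ≤ 4) :
    row A k i &&& 896 = (N A k i).card * 128 := by
  rw [row_eq]
  have h1 := Uz_lt A k i hk hD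
  exact block_maskD _ _ _ (by omega) (by omega)

open Classical in
theorem N_succ (k i : ℕ) : N A (k + 1) i = if A i k then insert k (N A k i) else N A k i := by
  ext x
  unfold N
  split_ifs with h
  · simp only [mem_filter, mem_range, mem_insert]
    constructor
    · rintro ⟨h1, h2⟩
      by_cases hx : x = k
      · exact Or.inl hx
      · exact Or.inr ⟨by omega, h2⟩
    · rintro (h1 | ⟨h1, h2⟩)
      · subst h1; exact ⟨by omega, h⟩
      · exact ⟨by omega, h2⟩
  · simp only [mem_filter, mem_range]
    constructor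
    · rintro ⟨h1, h2⟩
      have : x ≠ k := by rintro rfl; exact h h2
      exact ⟨by omega, h2⟩
    · rintro ⟨h1, h2⟩
      exact ⟨by omega, h2⟩

theorem not_mem_N (k i : ℕ) : k ∉ N A k i := by
  unfold N
  simp

open Classical in
theorem card_succ (k i : ℕ) :
    (N A (k + 1) i).card = (N A k i).card + (if A i k then 1 else 0) := by
  rw [N_succ]
  split_ifs with h
  · rw [card_insert_of_notMem (not_mem_N A k i)]
  · simp

open Classical in
theorem row_step (k i : ℕ) (hk : k ≤ 16) :
    row A k i + (N A (k + 1) i).card * 1024 = row A (k + 1) i + (if A i k then 2945 - k else 0) := by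
  have hV := Vz_nonneg A k i
  have hV1 := Vz_nonneg A (k + 1) i
  have e1 : ((Vz A k i).toNat : ℤ) = Vz A k i := Int.toNat_of_nonneg hV
  have e2 : ((Vz A (k + 1) i).toNat : ℤ) = Vz A (k + 1) i := Int.toNat_of_nonneg hV1
  have hEs : E A (k + 1) i = E A k i + (if A i k then 127 + k else 0) := by
    unfold E
    rw [N_succ]
    split_ifs with h
    · rw [sum_insert (not_mem_N A k i)]; ring
    · simp
  have hVs : Vz A (k + 1) i = Vz A k i + (N A k i).card - (if A i k then 2 else 0) := by
    have h0 : ∑ j ∈ N A k i, (((k + 1 : ℕ) : ℤ) - 3 - j) =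
        ∑ j ∈ N A k i, ((k : ℤ) - 3 - j) + (N A k i).card := by
      have : ∀ j ∈ N A k i, (((k + 1 : ℕ) : ℤ) - 3 - j) = ((k : ℤ) - 3 - j) + 1 := by
        intro j _; push_cast; ring
      rw [sum_congr rfl this, sum_add_distrib]
      simp
    unfold Vz
    rw [N_succ]
    split_ifs with h
    · rw [sum_insert (not_mem_N A k i), h0]
      push_cast; ring
    · rw [h0]; ring
  have hc := card_succ A k i
  unfold row
  zify
  rw [e1, e2, hEs, hVs, hc]
  split_ifs with h
  · push_cast
    have : ((2945 - k : ℕ) : ℤ) = 2945 - k := by omega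
    rw [this]
    ring
  · push_cast
    ring

end

open Classical in
/-- the search succeeds on the packed data of a graph -/
theorem node_sound (A : ℕ → ℕ → Prop) (hs : ∀ i j, A i j → A j i) (hi : ∀ i, ¬ A i i) (k : ℕ) :
    ∀ X J : ℕ, k ≤ 17 → (∀ i < k, (N A k i).card ≤ 4) → X = P (row A k) k + 2 ^ (17 * k) * J →
      node k X = true := by
  induction k with
  | zero => intro X J _ _ _; exact node_zero X
  | succ k ih =>
    intro X J hk hD hX
    have hD' : ∀ i < k, (N A k i).card ≤ 4 := by
      intro i hi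
      have := hD i (by omega)
      rw [card_succ] at this
      omega
    have hrow : ∀ i < k, row A (k + 1) i < 2 ^ 17 := fun i hi => row_lt A _ _ hk (hD i (by omega))
    have hrowk : ∀ i < k, row A k i < 2 ^ 17 := fun i hi => row_lt A _ _ (by omega) (hD' i hi)
    have hX' : X = P (row A (k + 1)) k + 2 ^ (17 * k) * (row A (k + 1) k + 2 ^ 17 * J) := by
      rw [hX, P_succ]
      have h3 : 2 ^ (17 * (k + 1)) = 2 ^ (17 * k) * 2 ^ 17 := by rw [← pow_add]; ring_nf
      rw [h3]; ring
    have hPlt : P (row A (k + 1)) k < 2 ^ (17 * k) := P_lt hrow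
    -- the code of the top vertex
    have hE : (X >>> (17 * k)) &&& 1023 = E A (k + 1) k := by
      have h1 : X >>> (17 * k) = row A (k + 1) k + 2 ^ 17 * J := by
        rw [Nat.shiftRight_eq_div_pow, hX', Nat.add_mul_div_left _ _ (by positivity),
          Nat.div_eq_of_lt hPlt, zero_add]
      rw [h1]
      have h2 := Nat.and_two_pow_sub_one_eq_mod (row A (k + 1) k + 2 ^ 17 * J) 10
      norm_num at h2
      rw [show (2 : ℕ) ^ 17 = 131072 by norm_num, h2]
      have h3 : E A (k + 1) k < 1024 := by
        rw [E_eq]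
        have := Uz_lt A (k + 1) k hk (hD k (by omega))
        have := hD k (by omega)
        omega
      unfold row
      omega
    -- the increment
    set m : ℕ := ∑ j ∈ N A k k, 2 ^ (17 * j) with hm
    have hNk : N A (k + 1) k = N A k k := by rw [N_succ, if_neg (hi k)]
    have hmem : m ∈ subs k (E A (k + 1) k) := by
      apply mem_subs
      · unfold N; exact filter_subset _ _
      · unfold E; rw [hNk]
    have hcand : (2945 - k) * m ∈ cands k (E A (k + 1) k) := by
      unfold cands
      exact List.mem_map.2 ⟨m, hmem, rfl⟩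
    -- the sum over the blocks
    have hland : X &&& maskD k = P (fun i => (N A (k + 1) i).card * 128) k := by
      rw [hX', maskD_eq, land_P _ hrow (fun _ _ => by norm_num)]
      unfold P
      apply sum_congr rfl
      intro i hi'
      have := mem_range.1 hi'
      simp only
      rw [row_maskD A (k + 1) i hk (hD i (by omega))]
    have hshift : (X &&& maskD k) <<< 3 = P (fun i => (N A (k + 1) i).card * 1024) k := by
      rw [hland, Nat.shiftLeft_eq]
      unfold P
      rw [sum_mul]
      apply sum_congr rfl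
      intro i _
      ring
    have hsum : P (row A k) k + P (fun i => (N A (k + 1) i).card * 1024) k =
        P (row A (k + 1)) k + (2945 - k) * m := by
      have h1 : (2945 - k) * m = ∑ i ∈ range k, (if A i k then 2945 - k else 0) * 2 ^ (17 * i) := by
        rw [hm, mul_sum]
        unfold N
        rw [sum_filter]
        apply sum_congr rfl
        intro i _
        by_cases h : A i k
        · rw [if_pos h, if_pos (hs _ _ h)]
        · have h' : ¬ A k i := fun h' => h (hs _ _ h')
          rw [if_neg h, if_neg h']; simp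
      rw [h1]
      unfold P
      rw [← sum_add_distrib, ← sum_add_distrib]
      apply sum_congr rfl
      intro i _
      rw [← add_mul, ← add_mul, row_step A k i (by omega)]
    have hnew : X - ((X &&& maskD k) <<< 3) + (2945 - k) * m =
        P (row A k) k + 2 ^ (17 * k) * (row A (k + 1) k + 2 ^ 17 * J) := by
      rw [hshift]
      have hle : P (fun i => (N A (k + 1) i).card * 1024) k ≤ P (row A (k + 1)) k := by
        unfold P
        apply sum_le_sum
        intro i hi'
        have := mem_range.1 hi'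
        apply Nat.mul_le_mul_right
        have h4 := hD i (by omega)
        show (N A (k + 1) i).card * 1024 ≤ row A (k + 1) i
        unfold row
        omega
      omega
    rw [node_succ, hE]
    refine tryAll_true hcand ?_ ?_
    · rw [hnew, guard_eq, land_P _ hrowk (fun _ _ => by norm_num)]
      unfold P
      apply sum_congr rfl
      intro i hi'
      have := mem_range.1 hi'
      simp only
      rw [row_guard A k i (by omega) (hD' i (by omega))]
    · exact ih _ _ (by omega) hD' hnew

end Pool.Agent.NE1
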